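import Pool.Agent.H16.FK.TargetsB

/-!
# Board hci_modules: DIS

The distribution of a tuple of the random array depends only on its pattern.
-/

set_option autoImplicit false

namespace Pool.Agent.H32.FK

open Set Pool.Agent.H75.HCI Pool.Agent.H16.FK

variable {kc ku k : ℕ}

/-- The item is valid. -/
def Vld (a : ℕ × ℕ × ℕ) : Prop := a.2.1 ≤ 2 ∧ (a.2.1 ≠ 1 → a.2.2 = 0)

lemma itp_vld (p : Idx (kc + ku) k) : Vld (itp p) := by
  unfold Vld itp
  rcases hp : p.2 with b | q
  · simp only [Sum.elim_inl]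
    split_ifs <;> simp
  · simp

lemma ilt_tri {a b : ℕ × ℕ × ℕ} : ilt a b ∨ a = b ∨ ilt b a := by
  obtain ⟨a1, a2, a3⟩ := a
  obtain ⟨b1, b2, b3⟩ := b
  simp only [ilt, Prod.mk.injEq]
  omega

lemma ilt_irr {a : ℕ × ℕ × ℕ} : ¬ ilt a a := by
  unfold ilt
  omega

lemma ilt_asym {a b : ℕ × ℕ × ℕ} (h : ilt a b) : ¬ ilt b a := by
  unfold ilt at *
  omega

/-- The items `a` and `a'` correspond. -/
def Rel (l : List (Idx (kc + ku) k)) (h : Idx (kc + ku) k → Idx (kc + ku) k)
    (a a' : ℕ × ℕ × ℕ) : Prop :=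
  ∃ p ∈ l, a.1 = p.1 ∧ a'.1 = (h p).1 ∧ a.2.1 = a'.2.1 ∧
    ((a.2.1 = 1 ∧ ∃ u u' : ℕ × Fin k, p.2 = .inr u ∧ (h p).2 = .inr u' ∧ a.2.2 = u.1 ∧
      a'.2.2 = u'.1) ∨ (a.2.1 ≠ 1 ∧ a.2.2 = 0 ∧ a'.2.2 = 0))

lemma rel_itp {l : List (Idx (kc + ku) k)} {h : Idx (kc + ku) k → Idx (kc + ku) k}
    (hp : PatOn h {p | p ∈ l}) {p : Idx (kc + ku) k} (hpl : p ∈ l) :
    Rel l h (itp p) (itp (h p)) := by
  have hk := hp.kd p hpl
  refine ⟨p, hpl, rfl, rfl, ?_, ?_⟩
  · unfold itp
    rcases h1 : p.2 with b | q <;> rcases h2 : (h p).2 with b' | q'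
    · rw [h1, h2] at hk
      simp only [kd, Sum.elim_inl, Sum.inl.injEq] at hk
      simp only [Sum.elim_inl, hk]
    · rw [h1, h2] at hk
      simp [kd] at hk
    · rw [h1, h2] at hk
      simp [kd] at hk
    · simp
  · unfold itp
    rcases h1 : p.2 with b | q <;> rcases h2 : (h p).2 with b' | q'
    · rw [h1, h2] at hk
      simp only [kd, Sum.elim_inl, Sum.inl.injEq] at hk
      right
      simp only [Sum.elim_inl, hk]
      split_ifs <;> simp
    · rw [h1, h2] at hk
      simp [kd] at hk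
    · rw [h1, h2] at hk
      simp [kd] at hk
    · left
      simp

lemma rel_sta {l : List (Idx (kc + ku) k)} {h : Idx (kc + ku) k → Idx (kc + ku) k}
    {p : Idx (kc + ku) k} (hpl : p ∈ l) : Rel l h (p.1, 0, 0) ((h p).1, 0, 0) :=
  ⟨p, hpl, rfl, rfl, rfl, Or.inr ⟨by norm_num, rfl, rfl⟩⟩

lemma rel_cmp {l : List (Idx (kc + ku) k)} {h : Idx (kc + ku) k → Idx (kc + ku) k}
    (hp : PatOn h {p | p ∈ l}) {a a' b b' : ℕ × ℕ × ℕ} (ha : Rel l h a a') (hb : Rel l h b b') :
    ilt a b ↔ ilt a' b' := by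
  obtain ⟨p, hpl, ha1, ha2, ha3, ha4⟩ := ha
  obtain ⟨q, hql, hb1, hb2, hb3, hb4⟩ := hb
  have h1 := hp.ord p hpl q hql
  have h2 := hp.ord q hql p hpl
  have h3 := hp.mem p hpl q hql
  unfold ilt
  rw [ha1, hb1, ha2, hb2, ← ha3, ← hb3]
  by_cases hpq : p.1 = q.1
  · have hpq' : (h p).1 = (h q).1 := by omega
    rcases ha4 with ⟨ha4, u, u', hu, hu', hau, hau'⟩ | ⟨ha4, hau, hau'⟩
    · rcases hb4 with ⟨hb4, v, v', hv, hv', hbv, hbv'⟩ | ⟨hb4, hbv, hbv'⟩
      · have h4 := h3 hpq u u' v v' hu hv hu' hv'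
        rw [hau, hau', hbv, hbv', hpq, hpq', h4]
        simp
      · rw [hpq, hpq']
        simp only [lt_irrefl, true_and, false_or]
        omega
    · rw [hpq, hpq']
      simp only [lt_irrefl, true_and, false_or]
      rcases hb4 with ⟨hb4, v, v', hv, hv', hbv, hbv'⟩ | ⟨hb4, hbv, hbv'⟩
      · omega
      · omega
  · have hpq' : (h p).1 ≠ (h q).1 := by omega
    constructor
    · rintro (h5 | ⟨h5, -⟩)
      · exact Or.inl (h1.2 h5)
      · exact absurd h5 hpq
    · rintro (h5 | ⟨h5, -⟩)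
      · exact Or.inl (h1.1 h5)
      · exact absurd h5 hpq'

lemma rel_eq {l : List (Idx (kc + ku) k)} {h : Idx (kc + ku) k → Idx (kc + ku) k}
    (hp : PatOn h {p | p ∈ l}) {a a' b b' : ℕ × ℕ × ℕ} (ha : Rel l h a a') (hb : Rel l h b b') :
    a = b ↔ a' = b' := by
  have h1 := rel_cmp hp ha hb
  have h2 := rel_cmp hp hb ha
  constructor
  · rintro rfl
    rcases ilt_tri (a := a') (b := b') with h3 | h3 | h3
    · exact absurd (h1.2 h3) ilt_irr
    · exact h3
    · exact absurd (h2.2 h3) ilt_irr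
  · rintro rfl
    rcases ilt_tri (a := a) (b := b) with h3 | h3 | h3
    · exact absurd (h1.1 h3) ilt_irr
    · exact h3
    · exact absurd (h2.1 h3) ilt_irr

/-! ## Steps -/

/-- The steps of a start item. -/
def f0 (c : Fin kc → ℕ) (j : ℕ) (i : ℕ) (st : Sta kc ku k) : Sta kc ku k :=
  ⟨Function.update st.j i j, fun p =>
    if p.1 = i then
      Sum.elim (fun b => Fin.addCases (fun b' => c b') (fun _ => st.pt p) b)
        (fun _ => st.pt p) p.2
    else st.pt p⟩

/-- The steps of a row. -/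
def f1 (y : Fin k → ℕ) (i m : ℕ) (st : Sta kc ku k) : Sta kc ku k :=
  ⟨st.j, fun p =>
    if p.1 = i then
      Sum.elim (fun _ => st.pt p) (fun q => if q.1 = m then y q.2 else st.pt p) p.2
    else st.pt p⟩

/-- The steps of the last hub points. -/
def f2 (y : Fin ku → ℕ) (i : ℕ) (st : Sta kc ku k) : Sta kc ku k :=
  ⟨st.j, fun p =>
    if p.1 = i then
      Sum.elim (fun b => Fin.addCases (fun _ => st.pt p) (fun b' => y b') b)
        (fun _ => st.pt p) p.2
    else st.pt p⟩

/-- What a step changes. -/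
structure Chg (a : ℕ × ℕ × ℕ) (s t : Sta kc ku k) : Prop where
  pt : ∀ p, itp p ≠ a → t.pt p = s.pt p
  j : ∀ i, a ≠ (i, 0, 0) → t.j i = s.j i

/-- Parallel steps. -/
structure Par (a a' : ℕ × ℕ × ℕ) (s s' t t' : Sta kc ku k) : Prop where
  c : Chg a s t
  c' : Chg a' s' t'
  pt : ∀ p p', itp p = a → itp p' = a' → kd p.2 = kd p'.2 → t.pt p = t'.pt p'
  j : a.2.1 = 0 → t.j a.1 = t'.j a'.1

lemma itp_c (i : ℕ) (b : Fin kc) :
    itp ((i, .inl (Fin.castAdd ku b)) : Idx (kc + ku) k) = (i, 0, 0) := by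
  unfold itp
  simp

lemma itp_u (i : ℕ) (b : Fin ku) :
    itp ((i, .inl (Fin.natAdd kc b)) : Idx (kc + ku) k) = (i, 2, 0) := by
  unfold itp
  simp

lemma itp_r (i : ℕ) (q : ℕ × Fin k) :
    itp ((i, .inr q) : Idx (kc + ku) k) = (i, 1, q.1) := rfl

/-- The three kinds of points. -/
lemma idx_cases {P : Idx (kc + ku) k → Prop}
    (h0 : ∀ i (b : Fin kc), P (i, .inl (Fin.castAdd ku b)))
    (h2 : ∀ i (b : Fin ku), P (i, .inl (Fin.natAdd kc b))) (h1 : ∀ i q, P (i, .inr q)) :
    ∀ p, P p := by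
  rintro ⟨i, b | q⟩
  · refine Fin.addCases (fun b' => ?_) (fun b' => ?_) b
    · exact h0 i b'
    · exact h2 i b'
  · exact h1 i q

lemma chg0 (c : Fin kc → ℕ) (j i : ℕ) (s : Sta kc ku k) : Chg (i, 0, 0) s (f0 c j i s) := by
  constructor
  · refine idx_cases ?_ ?_ ?_
    · intro i' b hp
      rw [itp_c] at hp
      simp only [f0]
      rw [if_neg]
      rintro rfl
      exact hp rfl
    · intro i' b hp
      simp [f0]
    · intro i' q hp
      simp [f0]
  · intro i' hi
    simp only [f0]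
    rw [Function.update_of_ne]
    rintro rfl
    exact hi rfl

lemma chg1 (y : Fin k → ℕ) (i m : ℕ) (s : Sta kc ku k) : Chg (i, 1, m) s (f1 y i m s) := by
  constructor
  · refine idx_cases ?_ ?_ ?_
    · intro i' b hp
      simp [f1]
    · intro i' b hp
      simp [f1]
    · intro i' q hp
      rw [itp_r] at hp
      simp only [f1]
      split_ifs with h1
      · simp only [Sum.elim_inr]
        rw [if_neg]
        intro h2
        exact hp (by rw [h1, h2])
      · rfl
  · intro i' hi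
    rfl

lemma chg2 (y : Fin ku → ℕ) (i : ℕ) (s : Sta kc ku k) : Chg (i, 2, 0) s (f2 y i s) := by
  constructor
  · refine idx_cases ?_ ?_ ?_
    · intro i' b hp
      simp [f2]
    · intro i' b hp
      rw [itp_u] at hp
      simp only [f2]
      rw [if_neg]
      rintro rfl
      exact hp rfl
    · intro i' q hp
      simp [f2]
  · intro i' hi
    rfl

lemma val0 (c : Fin kc → ℕ) (j i : ℕ) (s : Sta kc ku k) (b : Fin kc) :
    (f0 c j i s).pt (i, .inl (Fin.castAdd ku b)) = c b := by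
  simp [f0]

lemma val1 (y : Fin k → ℕ) (i m : ℕ) (s : Sta kc ku k) (b : Fin k) :
    (f1 y i m s).pt (i, .inr (m, b)) = y b := by
  simp [f1]

lemma val2 (y : Fin ku → ℕ) (i : ℕ) (s : Sta kc ku k) (b : Fin ku) :
    (f2 y i s).pt (i, .inl (Fin.natAdd kc b)) = y b := by
  simp [f2]

lemma par0 (c : Fin kc → ℕ) (j i i' : ℕ) (s s' : Sta kc ku k) :
    Par (i, 0, 0) (i', 0, 0) s s' (f0 c j i s) (f0 c j i' s') := by
  refine ⟨chg0 c j i s, chg0 c j i' s', ?_, ?_⟩
  · refine idx_cases ?_ ?_ ?_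
    · intro i1 b p' hp hp' hk
      rw [itp_c, Prod.mk.injEq] at hp
      obtain ⟨rfl, -⟩ := hp
      revert p'
      refine idx_cases ?_ ?_ ?_
      · intro i2 b' hp' hk
        rw [itp_c, Prod.mk.injEq] at hp'
        obtain ⟨rfl, -⟩ := hp'
        simp only [kd, Sum.elim_inl, Sum.inl.injEq] at hk
        rw [hk, val0, val0]
      · intro i2 b' hp' hk
        rw [itp_u] at hp'
        simp at hp'
      · intro i2 q hp' hk
        rw [itp_r] at hp'
        simp at hp'
    · intro i1 b p' hp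
      rw [itp_u] at hp
      simp at hp
    · intro i1 b p' hp
      rw [itp_r] at hp
      simp at hp
  · intro _
    simp [f0]

lemma par1 (y : Fin k → ℕ) (i m i' m' : ℕ) (s s' : Sta kc ku k) :
    Par (i, 1, m) (i', 1, m') s s' (f1 y i m s) (f1 y i' m' s') := by
  refine ⟨chg1 y i m s, chg1 y i' m' s', ?_, ?_⟩
  · refine idx_cases ?_ ?_ ?_
    · intro i1 b p' hp
      rw [itp_c] at hp
      simp at hp
    · intro i1 b p' hp
      rw [itp_u] at hp
      simp at hp
    · rintro i1 ⟨m1, b⟩ p' hp hp' hk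
      rw [itp_r, Prod.mk.injEq, Prod.mk.injEq] at hp
      obtain ⟨rfl, -, rfl⟩ := hp
      revert p'
      refine idx_cases ?_ ?_ ?_
      · intro i2 b' hp' hk
        rw [itp_c] at hp'
        simp at hp'
      · intro i2 b' hp' hk
        rw [itp_u] at hp'
        simp at hp'
      · rintro i2 ⟨m2, b'⟩ hp' hk
        rw [itp_r, Prod.mk.injEq, Prod.mk.injEq] at hp'
        obtain ⟨rfl, -, rfl⟩ := hp'
        simp only [kd, Sum.elim_inr, Sum.inr.injEq] at hk
        subst hk
        rw [val1, val1]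
  · intro h
    simp at h

lemma par2 (y : Fin ku → ℕ) (i i' : ℕ) (s s' : Sta kc ku k) :
    Par (i, 2, 0) (i', 2, 0) s s' (f2 y i s) (f2 y i' s') := by
  refine ⟨chg2 y i s, chg2 y i' s', ?_, ?_⟩
  · refine idx_cases ?_ ?_ ?_
    · intro i1 b p' hp
      rw [itp_c] at hp
      simp at hp
    · intro i1 b p' hp hp' hk
      rw [itp_u, Prod.mk.injEq] at hp
      obtain ⟨rfl, -⟩ := hp
      revert p'
      refine idx_cases ?_ ?_ ?_
      · intro i2 b' hp' hk
        rw [itp_c] at hp'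
        simp at hp'
      · intro i2 b' hp' hk
        rw [itp_u, Prod.mk.injEq] at hp'
        obtain ⟨rfl, -⟩ := hp'
        simp only [kd, Sum.elim_inl, Sum.inl.injEq] at hk
        rw [hk, val2, val2]
      · intro i2 q hp' hk
        rw [itp_r] at hp'
        simp at hp'
    · intro i1 b p' hp
      rw [itp_r] at hp
      simp at hp
  · intro h
    simp at h

/-- Two parallel steps use the same random choice. -/
lemma step_par (D : Dat kc ku k) (a a' : ℕ × ℕ × ℕ) (s s' : Sta kc ku k) (ha : Vld a)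
    (ha' : Vld a') (ht : a.2.1 = a'.2.1) (hj : a.2.1 ≠ 0 → s.j a.1 = s'.j a'.1) :
    ∃ (X : Type) (W : Ultrafilter X) (g g' : X → Sta kc ku k), step D a s = W.map g ∧
      step D a' s' = W.map g' ∧ ∀ x, Par a a' s s' (g x) (g' x) := by
  obtain ⟨i, t, m⟩ := a
  obtain ⟨i', t', m'⟩ := a'
  simp only at ht hj
  subst ht
  have h1 : t = 0 ∨ t = 1 ∨ t = 2 := by
    have := ha.1
    simp only at this
    omega
  rcases h1 with rfl | rfl | rfl
  · have h2 : m = 0 := ha.2 (by norm_num)
    have h2' : m' = 0 := ha'.2 (by norm_num)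
    subst h2 h2'
    exact ⟨ℕ, D.UU, fun j => f0 (D.c j) j i s, fun j => f0 (D.c j) j i' s', rfl, rfl,
      fun j => par0 (D.c j) j i i' s s'⟩
  · have hj' := hj (by norm_num)
    refine ⟨_, D.V (s.j i), fun y => f1 y i m s, fun y => f1 y i' m' s', rfl, ?_,
      fun y => par1 y i m i' m' s s'⟩
    rw [hj']
    rfl
  · have h2 : m = 0 := ha.2 (by norm_num)
    have h2' : m' = 0 := ha'.2 (by norm_num)
    subst h2 h2'
    have hj' := hj (by norm_num)
    refine ⟨_, D.U (s.j i), fun y => f2 y i s, fun y => f2 y i' s', rfl, ?_,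
      fun y => par2 y i i' s s'⟩
    rw [hj']
    rfl

lemma step_one (D : Dat kc ku k) (a : ℕ × ℕ × ℕ) (s : Sta kc ku k) (ha : Vld a) :
    ∃ (X : Type) (W : Ultrafilter X) (g : X → Sta kc ku k), step D a s = W.map g ∧
      ∀ x, Chg a s (g x) := by
  obtain ⟨X, W, g, g', h1, -, h2⟩ := step_par D a a s s ha ha rfl (fun _ => rfl)
  exact ⟨X, W, g, h1, fun x => (h2 x).c⟩

lemma ev_run (D : Dat kc ku k) (a : ℕ × ℕ × ℕ) (τ : List (ℕ × ℕ × ℕ)) (s : Sta kc ku k)
    {X : Type} (W : Ultrafilter X) (g : X → Sta kc ku k) (h : step D a s = W.map g)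
    (φ : Sta kc ku k → Prop) : (∀ᶠ t in (run D (a :: τ) s : Filter (Sta kc ku k)), φ t) ↔
      ∀ᶠ x in (W : Filter X), ∀ᶠ t in (run D τ (g x) : Filter (Sta kc ku k)), φ t := by
  have h1 : run D (a :: τ) s = (step D a s).bind (run D τ) := rfl
  rw [h1, h]
  exact Iff.rfl

/-- The invariant. -/
structure Inv (l : List (Idx (kc + ku) k)) (h : Idx (kc + ku) k → Idx (kc + ku) k)
    (σ σ' : List (ℕ × ℕ × ℕ)) (s s' : Sta kc ku k) : Prop where
  o : σ.Pairwise ilt
  o' : σ'.Pairwise ilt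
  v : ∀ a ∈ σ, Vld a
  v' : ∀ a ∈ σ', Vld a
  p : ∀ p ∈ l, (itp p ∈ σ ∧ itp (h p) ∈ σ') ∨
    (itp p ∉ σ ∧ itp (h p) ∉ σ' ∧ s.pt p = s'.pt (h p))
  j : ∀ p ∈ l, itp p ∈ σ → ((p.1, 0, 0) ∈ σ ∧ ((h p).1, 0, 0) ∈ σ') ∨
    ((p.1, 0, 0) ∉ σ ∧ ((h p).1, 0, 0) ∉ σ' ∧ s.j p.1 = s'.j (h p).1)

lemma inv_main (D : Dat kc ku k) (l : List (Idx (kc + ku) k))
    (h : Idx (kc + ku) k → Idx (kc + ku) k) (hp : PatOn h {p | p ∈ l}) (φ : List ℕ → Prop) :
    ∀ (n : ℕ) (σ σ' : List (ℕ × ℕ × ℕ)) (s s' : Sta kc ku k), σ.length + σ'.length = n →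
      Inv l h σ σ' s s' → ((∀ᶠ t in (run D σ s : Filter (Sta kc ku k)), φ (l.map t.pt)) ↔
        ∀ᶠ t in (run D σ' s' : Filter (Sta kc ku k)), φ ((l.map h).map t.pt)) := by
  intro n
  induction n using Nat.strong_induction_on with
  | _ n ih =>
    intro σ σ' s s' hn I
    -- the relation of a relevant item
    by_cases hrel : ∃ a τ, σ = a :: τ ∧ ¬ (∃ p ∈ l, itp p ∈ σ ∧ (itp p = a ∨ (p.1, 0, 0) = a))
    · obtain ⟨a, τ, rfl, hirr⟩ := hrel
      obtain ⟨X, W, g, hg, hc⟩ := step_one D a s (I.v a List.mem_cons_self)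
      rw [ev_run D a τ s W g hg]
      have hstep : ∀ x, (∀ᶠ t in (run D τ (g x) : Filter (Sta kc ku k)), φ (l.map t.pt)) ↔
          ∀ᶠ t in (run D σ' s' : Filter (Sta kc ku k)), φ ((l.map h).map t.pt) := by
        intro x
        refine ih _ (by rw [← hn, List.length_cons]; omega) τ σ' (g x) s' rfl ?_
        have hp1 : ∀ p ∈ l, itp p ≠ a := by
          intro p hpl hpa
          exact hirr ⟨p, hpl, by rw [hpa]; exact List.mem_cons_self, Or.inl hpa⟩
        have hp2 : ∀ p ∈ l, itp p ∈ τ → (p.1, 0, 0) ≠ a := by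
          intro p hpl hpt hpa
          exact hirr ⟨p, hpl, List.mem_cons_of_mem _ hpt, Or.inr hpa⟩
        refine ⟨(List.pairwise_cons.1 I.o).2, I.o', fun b hb => I.v b (List.mem_cons_of_mem _ hb),
          I.v', ?_, ?_⟩
        · intro p hpl
          rcases I.p p hpl with ⟨h1, h2⟩ | ⟨h1, h2, h3⟩
          · left
            exact ⟨(List.mem_cons.1 h1).resolve_left (hp1 p hpl), h2⟩
          · right
            refine ⟨fun h4 => h1 (List.mem_cons_of_mem _ h4), h2, ?_⟩
            rw [(hc x).pt p (hp1 p hpl), h3]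
        · intro p hpl hpt
          rcases I.j p hpl (List.mem_cons_of_mem _ hpt) with ⟨h1, h2⟩ | ⟨h1, h2, h3⟩
          · left
            exact ⟨(List.mem_cons.1 h1).resolve_left (hp2 p hpl hpt), h2⟩
          · right
            refine ⟨fun h4 => h1 (List.mem_cons_of_mem _ h4), h2, ?_⟩
            rw [(hc x).j p.1 (fun h4 => hp2 p hpl hpt h4.symm), h3]
      simp only [hstep]
      exact Filter.eventually_const
    by_cases hrel' : ∃ a τ, σ' = a :: τ ∧
        ¬ (∃ p ∈ l, itp p ∈ σ ∧ (itp (h p) = a ∨ ((h p).1, 0, 0) = a))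
    · obtain ⟨a, τ, rfl, hirr⟩ := hrel'
      obtain ⟨X, W, g, hg, hc⟩ := step_one D a s' (I.v' a List.mem_cons_self)
      rw [ev_run D a τ s' W g hg]
      have hstep : ∀ x, (∀ᶠ t in (run D τ (g x) : Filter (Sta kc ku k)),
          φ ((l.map h).map t.pt)) ↔
          ∀ᶠ t in (run D σ s : Filter (Sta kc ku k)), φ (l.map t.pt) := by
        intro x
        refine (ih _ (by rw [← hn, List.length_cons]; omega) σ τ s (g x) rfl ?_).symm
        have hp1 : ∀ p ∈ l, itp (h p) ≠ a := by
          intro p hpl hpa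
          rcases I.p p hpl with ⟨h1, h2⟩ | ⟨h1, h2, h3⟩
          · exact hirr ⟨p, hpl, h1, Or.inl hpa⟩
          · exact h2 (by rw [hpa]; exact List.mem_cons_self)
        have hp2 : ∀ p ∈ l, itp p ∈ σ → ((h p).1, 0, 0) ≠ a := by
          intro p hpl hpt hpa
          exact hirr ⟨p, hpl, hpt, Or.inr hpa⟩
        refine ⟨I.o, (List.pairwise_cons.1 I.o').2, I.v, fun b hb => I.v' b
          (List.mem_cons_of_mem _ hb), ?_, ?_⟩
        · intro p hpl
          rcases I.p p hpl with ⟨h1, h2⟩ | ⟨h1, h2, h3⟩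
          · left
            exact ⟨h1, (List.mem_cons.1 h2).resolve_left (hp1 p hpl)⟩
          · right
            refine ⟨h1, fun h4 => h2 (List.mem_cons_of_mem _ h4), ?_⟩
            rw [(hc x).pt (h p) (hp1 p hpl), h3]
        · intro p hpl hpt
          rcases I.j p hpl hpt with ⟨h1, h2⟩ | ⟨h1, h2, h3⟩
          · left
            exact ⟨h1, (List.mem_cons.1 h2).resolve_left (hp2 p hpl hpt)⟩
          · right
            refine ⟨h1, fun h4 => h2 (List.mem_cons_of_mem _ h4), ?_⟩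
            rw [(hc x).j (h p).1 (fun h4 => hp2 p hpl hpt h4.symm), h3]
      simp only [hstep]
      exact Filter.eventually_const.symm
    -- both heads are relevant or both programs are empty
    rcases σ with _ | ⟨a, τ⟩
    · rcases σ' with _ | ⟨a', τ'⟩
      · have h1 : l.map s.pt = (l.map h).map s'.pt := by
          rw [List.map_map]
          refine List.map_congr_left fun p hpl => ?_
          rcases I.p p hpl with ⟨h1, h2⟩ | ⟨h1, h2, h3⟩
          · exact absurd h1 List.not_mem_nil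
          · exact h3
        have h2 : (∀ᶠ t in (run D [] s : Filter (Sta kc ku k)), φ (l.map t.pt)) ↔
          φ (l.map s.pt) := Iff.rfl
        have h3 : (∀ᶠ t in (run D [] s' : Filter (Sta kc ku k)), φ ((l.map h).map t.pt)) ↔
          φ ((l.map h).map s'.pt) := Iff.rfl
        rw [h2, h3, h1]
      · exfalso
        refine hrel' ⟨a', τ', rfl, ?_⟩
        rintro ⟨p, hpl, hpt, -⟩
        exact absurd hpt List.not_mem_nil
    · rcases σ' with _ | ⟨a', τ'⟩
      · exfalso
        refine hrel ⟨a, τ, rfl, ?_⟩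
        rintro ⟨p, hpl, hpt, -⟩
        rcases I.p p hpl with ⟨h1, h2⟩ | ⟨h1, h2, h3⟩
        · exact absurd h2 List.not_mem_nil
        · exact h1 hpt
      · have hr : ∃ p ∈ l, itp p ∈ a :: τ ∧ (itp p = a ∨ (p.1, 0, 0) = a) := by
          by_contra hc
          exact hrel ⟨a, τ, rfl, hc⟩
        have hr' : ∃ p ∈ l, itp p ∈ a :: τ ∧ (itp (h p) = a' ∨ ((h p).1, 0, 0) = a') := by
          by_contra hc
          exact hrel' ⟨a', τ', rfl, hc⟩
        have hmin : ∀ b ∈ a :: τ, ¬ ilt b a := by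
          intro b hb hba
          rcases List.mem_cons.1 hb with rfl | hb
          · exact ilt_irr hba
          · exact ilt_asym hba ((List.pairwise_cons.1 I.o).1 b hb)
        have hmin' : ∀ b ∈ a' :: τ', ¬ ilt b a' := by
          intro b hb hba
          rcases List.mem_cons.1 hb with rfl | hb
          · exact ilt_irr hba
          · exact ilt_asym hba ((List.pairwise_cons.1 I.o').1 b hb)
        -- the image of `a`
        obtain ⟨a1, ha1, hR1⟩ : ∃ a1 ∈ a' :: τ', Rel l h a a1 := by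
          obtain ⟨p, hpl, hpt, hpa | hpa⟩ := hr
          · refine ⟨itp (h p), ?_, hpa ▸ rel_itp hp hpl⟩
            rcases I.p p hpl with ⟨h1, h2⟩ | ⟨h1, h2, h3⟩
            · exact h2
            · exact absurd hpt h1
          · refine ⟨((h p).1, 0, 0), ?_, hpa ▸ rel_sta hpl⟩
            rcases I.j p hpl hpt with ⟨h1, h2⟩ | ⟨h1, h2, h3⟩
            · exact h2
            · exact absurd (by rw [hpa]; exact List.mem_cons_self) h1
        obtain ⟨a2, ha2, hR2⟩ : ∃ a2 ∈ a :: τ, Rel l h a2 a' := by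
          obtain ⟨p, hpl, hpt, hpa | hpa⟩ := hr'
          · exact ⟨itp p, hpt, hpa ▸ rel_itp hp hpl⟩
          · refine ⟨(p.1, 0, 0), ?_, hpa ▸ rel_sta hpl⟩
            rcases I.j p hpl hpt with ⟨h1, h2⟩ | ⟨h1, h2, h3⟩
            · exact h1
            · exact absurd (by rw [hpa]; exact List.mem_cons_self) h2
        have haa : a1 = a' := by
          rcases ilt_tri (a := a1) (b := a') with h3 | h3 | h3
          · exact absurd h3 (hmin' a1 ha1)
          · exact h3
          · exact absurd ((rel_cmp hp hR2 hR1).2 h3) (hmin a2 ha2)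
        subst haa
        have hti : ∀ p ∈ l, (itp p = a ↔ itp (h p) = a1) := fun p hpl =>
          rel_eq hp (rel_itp hp hpl) hR1
        have hts : ∀ p ∈ l, ((p.1, 0, 0) = a ↔ ((h p).1, 0, 0) = a1) := fun p hpl =>
          rel_eq hp (rel_sta hpl) hR1
        have hty : a.2.1 = a1.2.1 := by
          obtain ⟨p, -, -, -, h1, -⟩ := hR1
          exact h1
        have hj : a.2.1 ≠ 0 → s.j a.1 = s'.j a1.1 := by
          intro h0
          obtain ⟨p, hpl, hpt, hpa | hpa⟩ := hr
          · have h1 : a.1 = p.1 := by rw [← hpa]; rfl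
            have h2 : a1.1 = (h p).1 := by rw [← (hti p hpl).1 hpa]; rfl
            rcases I.j p hpl hpt with ⟨h3, h4⟩ | ⟨h3, h4, h5⟩
            · exfalso
              refine hmin _ h3 ?_
              right
              refine ⟨h1.symm, Or.inl ?_⟩
              exact Nat.pos_of_ne_zero h0
            · rw [h1, h2, h5]
          · exact absurd (by rw [← hpa]) h0
        obtain ⟨X, W, g, g', hg, hg', hc⟩ := step_par D a a1 s s' (I.v a List.mem_cons_self)
          (I.v' a1 List.mem_cons_self) hty hj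
        rw [ev_run D a τ s W g hg, ev_run D a1 τ' s' W g' hg']
        have hstep : ∀ x, (∀ᶠ t in (run D τ (g x) : Filter (Sta kc ku k)), φ (l.map t.pt)) ↔
            ∀ᶠ t in (run D τ' (g' x) : Filter (Sta kc ku k)), φ ((l.map h).map t.pt) := by
          intro x
          refine ih _ (by rw [← hn, List.length_cons, List.length_cons]; omega) τ τ' (g x) (g' x)
            rfl ?_
          have hnt : a ∉ τ := fun h4 => ilt_irr ((List.pairwise_cons.1 I.o).1 a h4)
          have hnt' : a1 ∉ τ' := fun h4 => ilt_irr ((List.pairwise_cons.1 I.o').1 a1 h4)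
          refine ⟨(List.pairwise_cons.1 I.o).2, (List.pairwise_cons.1 I.o').2,
            fun b hb => I.v b (List.mem_cons_of_mem _ hb),
            fun b hb => I.v' b (List.mem_cons_of_mem _ hb), ?_, ?_⟩
          · intro p hpl
            by_cases hpa : itp p = a
            · right
              have hpa' := (hti p hpl).1 hpa
              refine ⟨by rw [hpa]; exact hnt, by rw [hpa']; exact hnt', ?_⟩
              exact (hc x).pt p (h p) hpa hpa' (hp.kd p hpl).symm
            · have hpa' : itp (h p) ≠ a1 := fun h4 => hpa ((hti p hpl).2 h4)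
              rcases I.p p hpl with ⟨h1, h2⟩ | ⟨h1, h2, h3⟩
              · left
                exact ⟨(List.mem_cons.1 h1).resolve_left hpa,
                  (List.mem_cons.1 h2).resolve_left hpa'⟩
              · right
                refine ⟨fun h4 => h1 (List.mem_cons_of_mem _ h4),
                  fun h4 => h2 (List.mem_cons_of_mem _ h4), ?_⟩
                rw [(hc x).c.pt p hpa, (hc x).c'.pt (h p) hpa', h3]
          · intro p hpl hpt
            by_cases hpa : (p.1, 0, 0) = a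
            · right
              have hpa' := (hts p hpl).1 hpa
              refine ⟨by rw [hpa]; exact hnt, by rw [hpa']; exact hnt', ?_⟩
              have h4 := (hc x).j (by rw [← hpa])
              rw [← hpa, ← hpa'] at h4
              exact h4
            · have hpa' : ((h p).1, 0, 0) ≠ a1 := fun h4 => hpa ((hts p hpl).2 h4)
              rcases I.j p hpl (List.mem_cons_of_mem _ hpt) with ⟨h1, h2⟩ | ⟨h1, h2, h3⟩
              · left
                exact ⟨(List.mem_cons.1 h1).resolve_left hpa,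
                  (List.mem_cons.1 h2).resolve_left hpa'⟩
              · right
                refine ⟨fun h4 => h1 (List.mem_cons_of_mem _ h4),
                  fun h4 => h2 (List.mem_cons_of_mem _ h4), ?_⟩
                rw [(hc x).c.j p.1 (fun h4 => hpa h4.symm), (hc x).c'.j (h p).1
                  (fun h4 => hpa' h4.symm), h3]
        simp only [hstep]

theorem pf_DIS : T_DIS := by
  intro kc ku k D P0 st st' l h σ σ' hp hσ hσ' h1 h1' h2 h3 h4 φ
  refine inv_main D l h hp φ _ σ σ' st st' rfl ?_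
  have hnP : ∀ a, a ∈ P0 → a ∉ σ := fun a ha has => ilt_irr (hσ.aft a has a ha)
  have hnP' : ∀ a, a ∈ P0 → a ∉ σ' := fun a ha has => ilt_irr (hσ'.aft a has a ha)
  refine ⟨hσ.ord, hσ'.ord, hσ.val, hσ'.val, ?_, ?_⟩
  · intro p hpl
    by_cases hpP : itp p ∈ P0
    · right
      obtain ⟨h5, h6⟩ := h1 p hpl hpP
      rw [h5]
      exact ⟨hnP _ hpP, hnP' _ hpP, h6.symm⟩
    · left
      exact h2 p hpl hpP
  · intro p hpl hpt
    have hpP : itp p ∉ P0 := fun h5 => hnP _ h5 hpt
    by_cases hsP : (p.1, 0, 0) ∈ P0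
    · right
      have h5 := h3 p hpl hsP
      rw [h5]
      exact ⟨hnP _ hsP, hnP' _ hsP, (h1' p.1 hsP).symm⟩
    · left
      have h5 := h4 p hpl hsP
      have h6 := hσ.sta (itp p) hpt
      have h7 := hσ'.sta (itp (h p)) (h2 p hpl hpP).2
      exact ⟨h6.resolve_right hsP, h7.resolve_right h5⟩

end Pool.Agent.H32.FK
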